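import Mathlib

/-!
# A positive-definiteness certificate on the Petersen graph

Fifteen linear functionals on `ℤ³` (one for each edge) and ten symmetric integer matrices
(one for each vertex) with zero sum, such that the associated quadratic form is positive on all
nonconstant vectors on which the two ends of each edge agree under the functional of the edge.
-/

namespace Pool.Agent.Lib.Helper43.PetersenCert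

/-- A vanishing sum of positive multiples of squares has all its squares zero. -/
theorem sos_zero (s0 s1 s2 s3 s4 s5 s6 s7 s8 s9 s10 s11 : ℤ)
    (h : 3926615*s0^2 + 3365670*s1^2 + 50995*s2^2 + 1682835*s3^2 + 3290*s4^2 + 3365670*s5^2 + 385*s6^2 + 11935*s7^2 + 320540*s8^2 + 480810*s9^2 + 112189*s10^2 + 11667656*s11^2 ≤ 0) :
    s0 = 0 ∧ s1 = 0 ∧ s2 = 0 ∧ s3 = 0 ∧ s4 = 0 ∧ s5 = 0 ∧ s6 = 0 ∧ s7 = 0 ∧ s8 = 0 ∧ s9 = 0 ∧ s10 = 0 ∧ s11 = 0 := by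
  have p0 := sq_nonneg s0
  have p1 := sq_nonneg s1
  have p2 := sq_nonneg s2
  have p3 := sq_nonneg s3
  have p4 := sq_nonneg s4
  have p5 := sq_nonneg s5
  have p6 := sq_nonneg s6
  have p7 := sq_nonneg s7
  have p8 := sq_nonneg s8
  have p9 := sq_nonneg s9
  have p10 := sq_nonneg s10
  have p11 := sq_nonneg s11
  refine ⟨?_, ?_, ?_, ?_, ?_, ?_, ?_, ?_, ?_, ?_, ?_, ?_⟩ <;> refine pow_eq_zero_iff (two_ne_zero) |>.1 (le_antisymm ?_ (sq_nonneg _)) <;> linarith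

set_option maxHeartbeats 4000000 in
/-- The positive-definiteness certificate (in coordinates): on the solutions of the fifteen linear equations,
the quadratic form is nonnegative, and it vanishes only at constant vectors. -/
theorem core (y0x y0y y0z y1x y1y y1z y2x y2y y2z y3x y3y y3z y4x y4y y4z y5x y5y y5z y6x y6y y6z y7x y7y y7z y8x y8y y8z y9x y9y y9z : ℤ)
    (h0 : y0y + y0z = y1y + y1z)
    (h1 : y1x - y1z = y2x - y2z)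
    (h2 : y2x + y2y = y3x + y3y)
    (h3 : y3x = y4x)
    (h4 : y0z = y4z)
    (h5 : y0x + y0z = y5x + y5z)
    (h6 : y1x - y1y - y1z = y6x - y6y - y6z)
    (h7 : y2x + y2y - y2z = y7x + y7y - y7z)
    (h8 : y3x + y3z = y8x + y8z)
    (h9 : y4y = y9y)
    (h10 : y5y - y5z = y7y - y7z)
    (h11 : y7x + y7y = y9x + y9y)
    (h12 : y6y + y6z = y9y + y9z)
    (h13 : y6x - y6y = y8x - y8y)
    (h14 : y5x - y5y + y5z = y8x - y8y + y8z)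
    : 0 ≤ 2*y0x*y0x - 6*y0x*y0y - 4*y0x*y0z + 2*y0y*y0y - 4*y0y*y0z - 4*y0z*y0z - 2*y1x*y1x + 6*y1x*y1y + 10*y1x*y1z + 5*y1y*y1y - 10*y1y*y1z - 3*y1z*y1z - 3*y2x*y2x - 10*y2x*y2y + 10*y2x*y2z + 5*y2y*y2y + 6*y2y*y2z - 2*y2z*y2z - 4*y3x*y3x - 4*y3x*y3y - 4*y3x*y3z + 2*y3y*y3y - 6*y3y*y3z + 2*y3z*y3z + 2*y4x*y4y + 2*y4x*y4z + 2*y4y*y4z + 5*y5x*y5x + 6*y5x*y5y - 10*y5x*y5z - 2*y5y*y5y + 10*y5y*y5z - 3*y5z*y5z - 2*y6x*y6x + 10*y6x*y6y + 6*y6x*y6z - 3*y6y*y6y - 10*y6y*y6z + 5*y6z*y6z + 5*y7x*y7x - 10*y7x*y7y + 6*y7x*y7z - 3*y7y*y7y + 10*y7y*y7z - 2*y7z*y7z - 3*y8x*y8x + 10*y8x*y8y - 10*y8x*y8z - 2*y8y*y8y + 6*y8y*y8z + 5*y8z*y8z + 2*y9x*y9x - 4*y9x*y9y - 6*y9x*y9z - 4*y9y*y9y - 4*y9y*y9z + 2*y9z*y9z ∧ (2*y0x*y0x - 6*y0x*y0y - 4*y0x*y0z + 2*y0y*y0y - 4*y0y*y0z - 4*y0z*y0z - 2*y1x*y1x + 6*y1x*y1y + 10*y1x*y1z +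 5*y1y*y1y - 10*y1y*y1z - 3*y1z*y1z - 3*y2x*y2x - 10*y2x*y2y + 10*y2x*y2z + 5*y2y*y2y + 6*y2y*y2z - 2*y2z*y2z - 4*y3x*y3x - 4*y3x*y3y - 4*y3x*y3z + 2*y3y*y3y - 6*y3y*y3z + 2*y3z*y3z + 2*y4x*y4y + 2*y4x*y4z + 2*y4y*y4z + 5*y5x*y5x + 6*y5x*y5y - 10*y5x*y5z - 2*y5y*y5y + 10*y5y*y5z - 3*y5z*y5z - 2*y6x*y6x + 10*y6x*y6y + 6*y6x*y6z - 3*y6y*y6y - 10*y6y*y6z + 5*y6z*y6z + 5*y7x*y7x - 10*y7x*y7y + 6*y7x*y7z - 3*y7y*y7y + 10*y7y*y7z - 2*y7z*y7z - 3*y8x*y8x + 10*y8x*y8y - 10*y8x*y8z - 2*y8y*y8y + 6*y8y*y8z + 5*y8z*y8z + 2*y9x*y9x - 4*y9x*y9y - 6*y9x*y9z - 4*y9y*y9y - 4*y9y*y9z + 2*y9z*y9z ≤ 0 →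
    y0x = y4x ∧ y0y = y4y ∧ y0z = y4z ∧ y1x = y4x ∧ y1y = y4y ∧ y1z = y4z ∧ y2x = y4x ∧ y2y = y4y ∧ y2z = y4z ∧ y3x = y4x ∧ y3y = y4y ∧ y3z = y4z ∧ y5x = y4x ∧ y5y = y4y ∧ y5z = y4z ∧ y6x = y4x ∧ y6y = y4y ∧ y6z = y4z ∧ y7x = y4x ∧ y7y = y4y ∧ y7z = y4z ∧ y8x = y4x ∧ y8y = y4y ∧ y8z = y4z ∧ y9x = y4x ∧ y9y = y4y ∧ y9z = y4z) := by
  have e_y0y : y0y = y9z - y6x + y1x + y4y - y4z := by linarith
  have e_y0z : y0z = y4z := by linarith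
  have e_y1y : y1y = y2x + y9z - y6x - y2z + y4y := by linarith
  have e_y1z : y1z = -y2x + y2z + y1x := by linarith
  have e_y2y : y2y = -y2x + y3y + y4x := by linarith
  have e_y3x : y3x = y4x := by linarith
  have e_y5y : y5y = y0x - y3z + y8y - y4x + y4z := by linarith
  have e_y5z : y5z = -y5x + y0x + y4z := by linarith
  have e_y6z : y6z = y9z - y6y + y4y := by linarith
  have e_y7x : y7x = -y5x + y3y + y3z - y8y - y2z + 2*y4x := by linarith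
  have e_y7y : y7y = y5x + y7z - y3z + y8y - y4x := by linarith
  have e_y8x : y8x = y6x - y6y + y8y := by linarith
  have e_y8z : y8z = -y6x + y6y + y3z - y8y + y4x := by linarith
  have e_y9x : y9x = y3y + y7z - y2z + y4x - y4y := by linarith
  have e_y9y : y9y = y4y := by linarith
  have key : 23559690 * (2*y0x*y0x - 6*y0x*y0y - 4*y0x*y0z + 2*y0y*y0y - 4*y0y*y0z - 4*y0z*y0z - 2*y1x*y1x + 6*y1x*y1y + 10*y1x*y1z + 5*y1y*y1y - 10*y1y*y1z - 3*y1z*y1z - 3*y2x*y2x - 10*y2x*y2y + 10*y2x*y2z + 5*y2y*y2y + 6*y2y*y2z - 2*y2z*y2z - 4*y3x*y3x - 4*y3x*y3y - 4*y3x*y3z + 2*y3y*y3y - 6*y3y*y3z + 2*y3z*y3z + 2*y4x*y4y + 2*y4x*y4z + 2*y4y*y4z + 5*y5x*y5x + 6*y5x*y5y - 10*y5x*y5z - 2*y5y*y5y + 10*y5y*y5z - 3*y5z*y5z - 2*y6x*y6x + 10*y6x*y6y + 6*y6x*y6z - 3*y6y*y6y - 10*y6y*y6z + 5*y6z*y6z + 5*y7x*y7x - 10*y7x*y7y + 6*y7x*y7z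 - 3*y7y*y7y + 10*y7y*y7z - 2*y7z*y7z - 3*y8x*y8x + 10*y8x*y8y - 10*y8x*y8z - 2*y8y*y8y + 6*y8y*y8z + 5*y8z*y8z + 2*y9x*y9x - 4*y9x*y9y - 6*y9x*y9z - 4*y9y*y9y - 4*y9y*y9z + 2*y9z*y9z) = 3926615*(12*(y6y - y4y) - 5*(y6x - y4x) - 7*(y8y - y4y) - 5*(y9z - y4z) + 5*(y3z - y4z))^2 + 3365670*(7*(y7z - y4z) + 4*(y8y - y4y) - 3*(y9z - y4z) + 4*(y5x - y4x) - 4*(y3z - y4z))^2 + 50995*(77*(y6x - y4x) + 49*(y8y - y4y) - 49*(y9z - y4z) - 60*(y2x - y4x) + 60*(y2z - y4z) + 18*(y0x - y4x) - 35*(y3z - y4z))^2 + 1682835*(14*(y3y - y4y) - 10*(y8y - y4y) - 3*(y9z - y4z) - 10*(y5x - y4x) - 10*(y2x - y4x) - 4*(y2z - y4z) + 7*(y3z - y4z))^2 + 3290*(93*(y8y - y4y) - 82*(y9z - y4z) + 44*(y5x - y4x) - 60*(y2x - y4x) + 60*(y2z - y4z) + 84*(y0x - y4x) - 13*(y3z - y4z))^2 + 3365670*(7*(y1x - y4x) - 4*(y2x - y4x) + 4*(y2z - y4z) - 3*(y0x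 - y4x))^2 + 385*(329*(y9z - y4z) + 14*(y5x - y4x) + 150*(y2x - y4x) - 150*(y2z - y4z) - 24*(y0x - y4x) + 17*(y3z - y4z))^2 + 11935*(168*(y5x - y4x) - 80*(y2x - y4x) + 80*(y2z - y4z) - 53*(y0x - y4x) - 31*(y3z - y4z))^2 + 320540*(14*(y2x - y4x) + 7*(y2z - y4z) - 4*(y0x - y4x) - 5*(y3z - y4z))^2 + 480810*(7*(y2z - y4z) + 8*(y0x - y4x) - 11*(y3z - y4z))^2 + 112189*(15*(y0x - y4x) - 11*(y3z - y4z))^2 + 11667656*((y3z - y4z))^2 := by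
    rw [e_y0y, e_y0z, e_y1y, e_y1z, e_y2y, e_y3x, e_y5y, e_y5z, e_y6z, e_y7x, e_y7y, e_y8x, e_y8z, e_y9x, e_y9y]; ring
  constructor
  · have hp : 0 ≤ 3926615*(12*(y6y - y4y) - 5*(y6x - y4x) - 7*(y8y - y4y) - 5*(y9z - y4z) + 5*(y3z - y4z))^2 + 3365670*(7*(y7z - y4z) + 4*(y8y - y4y) - 3*(y9z - y4z) + 4*(y5x - y4x) - 4*(y3z - y4z))^2 + 50995*(77*(y6x - y4x) + 49*(y8y - y4y) - 49*(y9z - y4z) - 60*(y2x - y4x) + 60*(y2z - y4z) + 18*(y0x - y4x) - 35*(y3z - y4z))^2 + 1682835*(14*(y3y - y4y) - 10*(y8y - y4y) - 3*(y9z - y4z) - 10*(y5x - y4x) - 10*(y2x - y4x) - 4*(y2z - y4z) + 7*(y3z - y4z))^2 + 3290*(93*(y8y - y4y) - 82*(y9z - y4z) + 44*(y5x - y4x) - 60*(y2x - y4x) + 60*(y2z - y4z) + 84*(y0x - y4x) - 13*(y3z - y4z))^2 + 3365670*(7*(y1x - y4x) - 4*(y2x - y4x) + 4*(y2z - y4z) - 3*(y0x - y4x))^2 + 385*(329*(y9z - y4z)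 + 14*(y5x - y4x) + 150*(y2x - y4x) - 150*(y2z - y4z) - 24*(y0x - y4x) + 17*(y3z - y4z))^2 + 11935*(168*(y5x - y4x) - 80*(y2x - y4x) + 80*(y2z - y4z) - 53*(y0x - y4x) - 31*(y3z - y4z))^2 + 320540*(14*(y2x - y4x) + 7*(y2z - y4z) - 4*(y0x - y4x) - 5*(y3z - y4z))^2 + 480810*(7*(y2z - y4z) + 8*(y0x - y4x) - 11*(y3z - y4z))^2 + 112189*(15*(y0x - y4x) - 11*(y3z - y4z))^2 + 11667656*((y3z - y4z))^2 := by positivity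
    rw [← key] at hp; linarith
  intro hQ
  have hs : 3926615*(12*(y6y - y4y) - 5*(y6x - y4x) - 7*(y8y - y4y) - 5*(y9z - y4z) + 5*(y3z - y4z))^2 + 3365670*(7*(y7z - y4z) + 4*(y8y - y4y) - 3*(y9z - y4z) + 4*(y5x - y4x) - 4*(y3z - y4z))^2 + 50995*(77*(y6x - y4x) + 49*(y8y - y4y) - 49*(y9z - y4z) - 60*(y2x - y4x) + 60*(y2z - y4z) + 18*(y0x - y4x) - 35*(y3z - y4z))^2 + 1682835*(14*(y3y - y4y) - 10*(y8y - y4y) - 3*(y9z - y4z) - 10*(y5x - y4x) - 10*(y2x - y4x) - 4*(y2z - y4z) + 7*(y3z - y4z))^2 + 3290*(93*(y8y - y4y) - 82*(y9z - y4z) + 44*(y5x - y4x) - 60*(y2x - y4x) + 60*(y2z - y4z) + 84*(y0x - y4x) - 13*(y3z - y4z))^2 + 3365670*(7*(y1x - y4x) - 4*(y2x - y4x) + 4*(y2z - y4z) - 3*(y0x - y4x))^2 + 385*(329*(y9z - y4z) + 14*(y5x - y4x) + 150*(y2x - y4x) - 150*(y2z - y4z) - 24*(y0x - y4x) + 17*(y3z - y4z))^2 + 11935*(168*(y5x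 - y4x) - 80*(y2x - y4x) + 80*(y2z - y4z) - 53*(y0x - y4x) - 31*(y3z - y4z))^2 + 320540*(14*(y2x - y4x) + 7*(y2z - y4z) - 4*(y0x - y4x) - 5*(y3z - y4z))^2 + 480810*(7*(y2z - y4z) + 8*(y0x - y4x) - 11*(y3z - y4z))^2 + 112189*(15*(y0x - y4x) - 11*(y3z - y4z))^2 + 11667656*((y3z - y4z))^2 ≤ 0 := by rw [← key]; linarith
  obtain ⟨q0, q1, q2, q3, q4, q5, q6, q7, q8, q9, q10, q11⟩ := sos_zero _ _ _ _ _ _ _ _ _ _ _ _ hs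
  have f_y3z : y3z = y4z := by linarith
  have f_y0x : y0x = y4x := by linarith
  have f_y2z : y2z = y4z := by linarith
  have f_y2x : y2x = y4x := by linarith
  have f_y5x : y5x = y4x := by linarith
  have f_y9z : y9z = y4z := by linarith
  have f_y1x : y1x = y4x := by linarith
  have f_y8y : y8y = y4y := by linarith
  have f_y3y : y3y = y4y := by linarith
  have f_y6x : y6x = y4x := by linarith
  have f_y7z : y7z = y4z := by linarith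
  have f_y6y : y6y = y4y := by linarith
  refine ⟨?_, ?_, ?_, ?_, ?_, ?_, ?_, ?_, ?_, ?_, ?_, ?_, ?_, ?_, ?_, ?_, ?_, ?_, ?_, ?_, ?_, ?_, ?_, ?_, ?_, ?_, ?_⟩ <;> linarith

/-- The first endpoint of the `e`-th edge. -/
def U : Fin 15 → Fin 10 := ![0, 1, 2, 3, 0, 0, 1, 2, 3, 4, 5, 7, 6, 6, 5]

/-- The second endpoint of the `e`-th edge. -/
def W : Fin 15 → Fin 10 := ![1, 2, 3, 4, 4, 5, 6, 7, 8, 9, 7, 9, 9, 8, 8]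

/-- The linear functionals. -/
def H : Fin 15 → Fin 3 → ℤ := ![![0, 1, 1], ![1, 0, -1], ![1, 1, 0], ![1, 0, 0], ![0, 0, 1],
  ![1, 0, 1], ![1, -1, -1], ![1, 1, -1], ![1, 0, 1], ![0, 1, 0], ![0, 1, -1], ![1, 1, 0],
  ![0, 1, 1], ![1, -1, 0], ![1, -1, 1]]

/-- The symmetric matrices. -/
def S : Fin 10 → Fin 3 → Fin 3 → ℤ := ![![![2, -3, -2], ![-3, 2, -2], ![-2, -2, -4]],
  ![![-2, 3, 5], ![3, 5, -5], ![5, -5, -3]], ![![-3, -5, 5], ![-5, 5, 3], ![5, 3, -2]],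
  ![![-4, -2, -2], ![-2, 2, -3], ![-2, -3, 2]], ![![0, 1, 1], ![1, 0, 1], ![1, 1, 0]],
  ![![5, 3, -5], ![3, -2, 5], ![-5, 5, -3]], ![![-2, 5, 3], ![5, -3, -5], ![3, -5, 5]],
  ![![5, -5, 3], ![-5, -3, 5], ![3, 5, -2]], ![![-3, 5, -5], ![5, -2, 3], ![-5, 3, 5]],
  ![![2, -2, -3], ![-2, -4, -2], ![-3, -2, 2]]]

/-- The quadratic form. -/
def Q (y : Fin 10 → Fin 3 → ℤ) : ℤ := ∑ v, ∑ a, ∑ b, S v a b * (y v a * y v b)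

theorem sum_S : ∀ a b, ∑ v, S v a b = 0 := by decide

theorem H_bound : ∀ e a, H e a = -1 ∨ H e a = 0 ∨ H e a = 1 := by decide

set_option maxHeartbeats 4000000 in
theorem Q_eq (y : Fin 10 → Fin 3 → ℤ) : Q y =
    2*y 0 0*y 0 0 - 6*y 0 0*y 0 1 - 4*y 0 0*y 0 2 + 2*y 0 1*y 0 1 - 4*y 0 1*y 0 2 - 4*y 0 2*y 0 2 - 2*y 1 0*y 1 0 + 6*y 1 0*y 1 1 + 10*y 1 0*y 1 2 + 5*y 1 1*y 1 1 - 10*y 1 1*y 1 2 - 3*y 1 2*y 1 2 - 3*y 2 0*y 2 0 - 10*y 2 0*y 2 1 + 10*y 2 0*y 2 2 + 5*y 2 1*y 2 1 + 6*y 2 1*y 2 2 - 2*y 2 2*y 2 2 - 4*y 3 0*y 3 0 - 4*y 3 0*y 3 1 - 4*y 3 0*y 3 2 + 2*y 3 1*y 3 1 - 6*y 3 1*y 3 2 + 2*y 3 2*y 3 2 + 2*y 4 0*y 4 1 + 2*y 4 0*y 4 2 + 2*y 4 1*y 4 2 + 5*y 5 0*y 5 0 + 6*y 5 0*y 5 1 - 10*y 5 0*y 5 2 - 2*y 5 1*y 5 1 + 10*y 5 1*y 5 2 - 3*y 5 2*y 5 2 - 2*y 6 0*y 6 0 + 10*y 6 0*y 6 1 + 6*y 6 0*y 6 2 - 3*y 6 1*y 6 1 - 10*y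 6 1*y 6 2 + 5*y 6 2*y 6 2 + 5*y 7 0*y 7 0 - 10*y 7 0*y 7 1 + 6*y 7 0*y 7 2 - 3*y 7 1*y 7 1 + 10*y 7 1*y 7 2 - 2*y 7 2*y 7 2 - 3*y 8 0*y 8 0 + 10*y 8 0*y 8 1 - 10*y 8 0*y 8 2 - 2*y 8 1*y 8 1 + 6*y 8 1*y 8 2 + 5*y 8 2*y 8 2 + 2*y 9 0*y 9 0 - 4*y 9 0*y 9 1 - 6*y 9 0*y 9 2 - 4*y 9 1*y 9 1 - 4*y 9 1*y 9 2 + 2*y 9 2*y 9 2 := by
  unfold Q
  simp only [Fin.sum_univ_succ, Fin.sum_univ_zero, S]
  simp
  ring

set_option maxHeartbeats 4000000 in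
/-- The certificate: if the two ends of each edge agree under the functional of the edge, then the
quadratic form is nonnegative, and it is zero only if all ten vectors agree. -/
theorem cert (y : Fin 10 → Fin 3 → ℤ)
    (h : ∀ e, ∑ a, H e a * y (U e) a = ∑ a, H e a * y (W e) a) :
    0 ≤ Q y ∧ (Q y ≤ 0 → ∀ u v a, y u a = y v a) := by
  have h0 := h 0
  have h1 := h 1
  have h2 := h 2
  have h3 := h 3
  have h4 := h 4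
  have h5 := h 5
  have h6 := h 6
  have h7 := h 7
  have h8 := h 8
  have h9 := h 9
  have h10 := h 10
  have h11 := h 11
  have h12 := h 12
  have h13 := h 13
  have h14 := h 14
  simp only [Fin.sum_univ_three, H, U, W] at h0 h1 h2 h3 h4 h5 h6 h7 h8 h9 h10 h11 h12 h13 h14
  simp at h0 h1 h2 h3 h4 h5 h6 h7 h8 h9 h10 h11 h12 h13 h14
  have key := core (y 0 0) (y 0 1) (y 0 2) (y 1 0) (y 1 1) (y 1 2) (y 2 0) (y 2 1) (y 2 2)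
    (y 3 0) (y 3 1) (y 3 2) (y 4 0) (y 4 1) (y 4 2) (y 5 0) (y 5 1) (y 5 2) (y 6 0) (y 6 1) (y 6 2)
    (y 7 0) (y 7 1) (y 7 2) (y 8 0) (y 8 1) (y 8 2) (y 9 0) (y 9 1) (y 9 2)
    (by linarith) (by linarith) (by linarith) (by linarith) (by linarith) (by linarith)
    (by linarith) (by linarith) (by linarith) (by linarith) (by linarith) (by linarith)
    (by linarith) (by linarith) (by linarith)
  have hQ := Q_eq y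
  refine ⟨hQ ▸ key.1, fun hq => ?_⟩
  obtain ⟨a1, a2, a3, a4, a5, a6, a7, a8, a9, a10, a11, a12, a13, a14, a15, a16, a17, a18, a19, a20,
    a21, a22, a23, a24, a25, a26, a27⟩ := key.2 (hQ ▸ hq)
  have hc : ∀ u a, y u a = y 4 a := by
    intro u a
    fin_cases u <;> fin_cases a <;> first | assumption | rfl
  intro u v a
  rw [hc u a, hc v a]

end Pool.Agent.Lib.Helper43.PetersenCert
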